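import Pool.Agent.W647.HV8

/-!
# Chern characters of `K₀` and of the negative K-groups of group rings over arbitrary rings

Let `R` be any ring (not necessarily commutative), `G` any group and `n ≥ 0`. By Bass,
`K_{-n}(R[G])` is a natural direct summand of `K₀(R[G × ℤⁿ])`. Let `T` be a trace on `R` with values
in an abelian group `M`. The classes of `K₀(R[Γ])`, `Γ = G × ℤⁿ`, pair with the classes of degree
`2 k` in the cohomology of `C(g) / ⟨g⟩`, for all `g ∈ Γ`; for classes of the form `c × [ℤⁿ]`, where
`c` is a class of degree `2 k - n` of `C_G(g) / ⟨g⟩`, this is the component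
`K_{-n}(R[G]) → H_{2 k - n}(C_G(g) / ⟨g⟩; M)` of the Chern character of `K_{-n}(R[G])`. We show that
for all groups `G`, all `g` of finite order and all `2 k ≥ 2` these numbers are infinitely
divisible, and zero if `M` is a vector space over the field with `p > 2 k` elements.
-/

set_option autoImplicit false

namespace Pool.Agent.Results.MP_28303a_al.ChernCharacterDivisible

open Pool.Agent.W647.HV1

universe u v w

/-- Let `R` be a ring, `T : R → M` a homomorphism to an abelian group with `T (a b) = T (b a)`,
`G` a group, `n ≥ 0`, `Γ = G × ℤⁿ`, `g` an element of finite order of `Γ`, `k ≥ 1` and `c` an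
alternating homogeneous cocycle of degree `2 k` on `Γ` with values in the centre of `R` which is
invariant under left multiplication by the centralizer of `g`, and under left multiplication by `g`
in each single variable (a representative of a class of degree `2 k` of the group `C(g) / ⟨g⟩`).
Let `e` be an idempotent matrix over `R[Γ]` and `τ = ∑ T (tr (e_{w 0} ⋯ e_{w (2 k)}) ·
c (t, t w₀, t w₀ w₁, …, t w₀ ⋯ w_{2 k - 1}))`, the sum over all `w ∈ Γ ^ (2 k + 1)` whose product
`y` is conjugate to `g`, where `t y t⁻¹ = g` and `e_s` is the matrix of the coefficients of `e` at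
`s`. Then `((2 k)! / k!) τ` is divisible in `M` by every integer `N ≥ 1`; and `τ = 0` if `p M = 0`
for a prime `p > 2 k`. -/
theorem result (R : Type u) [Ring R] (M : Type v) [AddCommGroup M] (T : R →+ M)
    (hT : ∀ a b, T (a * b) = T (b * a)) (G : Type w) [Group G] (n d : ℕ)
    (e : Matrix (Fin d) (Fin d) (MonoidAlgebra R (G × Multiplicative (Fin n → ℤ))))
    (he : e * e = e) (g : G × Multiplicative (Fin n → ℤ)) (hg : IsOfFinOrder g)
    (t : G × Multiplicative (Fin n → ℤ) → G × Multiplicative (Fin n → ℤ))
    (ht : ∀ y, IsConj y g → t y * y * (t y)⁻¹ = g) (k : ℕ) (hk : 1 ≤ k)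
    (c : (Fin (2 * k + 1) → G × Multiplicative (Fin n → ℤ)) → R)
    (hcen : ∀ v a, a * c v = c v * a) (hc : IsClassCocycle g c) :
    (∀ N : ℕ, N ≠ 0 → ∃ y : M, (2 * k).descFactorial k • chernSum T g t c e = N • y) ∧
      ∀ p : ℕ, p.Prime → 2 * k < p → (∀ y : M, p • y = 0) → chernSum T g t c e = 0 := by
  have h1 : ∀ N : ℕ, N ≠ 0 → ∃ y : M, (2 * k).descFactorial k • chernSum T g t c e = N • y :=
    fun N hN => chernSum_dvd T hT hg ht (by omega) hc hcen e he N hN
  refine ⟨h1, fun p hp hkp hM => ?_⟩
  obtain ⟨y, hy⟩ := h1 p hp.ne_zero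
  rw [hM] at hy
  have hcop : Nat.Coprime p ((2 * k).descFactorial k) := by
    rw [hp.coprime_iff_not_dvd]
    intro hdvd
    have h2 : p ∣ (2 * k).factorial := by
      rw [← Nat.factorial_mul_descFactorial (show k ≤ 2 * k by omega)]
      exact hdvd.mul_left _
    rw [hp.dvd_factorial] at h2
    omega
  have h3 := Nat.gcd_eq_gcd_ab p ((2 * k).descFactorial k)
  rw [hcop] at h3
  have h4 : ((p : ℤ) * (Nat.gcdA p ((2 * k).descFactorial k)) +
      (((2 * k).descFactorial k : ℕ) : ℤ) * (Nat.gcdB p ((2 * k).descFactorial k))) •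
        chernSum T g t c e = chernSum T g t c e := by
    rw [← h3, Nat.cast_one, one_smul]
  rw [add_smul, mul_smul, natCast_zsmul, hM, zero_add, mul_smul, natCast_zsmul, smul_comm, hy,
    smul_zero] at h4
  exact h4.symm

end Pool.Agent.Results.MP_28303a_al.ChernCharacterDivisible
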